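import Pool.Agent.H23.Bog
import Pool.Agent.H23.BP
import Pool.Agent.H23.Ori3

set_option autoImplicit false

namespace Pool.Agent.Results.MP_406c0a_lc.NPC
open Pool.Agent.H11.PT

/-- adjacency in the king's graph -/
def King {n : ℕ} (p q : Fin n × Fin n) : Prop := max (Nat.dist p.1 q.1) (Nat.dist p.2 q.2) = 1

/-- the input `(n, P)` is a list of words over the letters `0, …, n² - 1` -/
def Valid (y : ℕ × List (List ℕ)) : Prop :=
  1 ≤ y.1 ∧ ∀ w ∈ y.2, 2 ≤ w.length ∧ w.Nodup ∧ ∀ a ∈ w, a < y.1 * y.1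

/-- the word `w` occurs in the board `B` -/
def Occurs {n : ℕ} (B : Fin n × Fin n ≃ Fin (n * n)) (w : List ℕ) : Prop :=
  w.IsChain fun a b => ∃ p q, (B p : ℕ) = a ∧ (B q : ℕ) = b ∧ King p q

/-- BOGGLE-SOLVE -/
def Solve (y : ℕ × List (List ℕ)) : Prop :=
  Valid y ∧ ∃ B : Fin y.1 × Fin y.1 ≃ Fin (y.1 * y.1), ∀ w ∈ y.2, Occurs B w

open Pool.Agent.H23 Bog BP Ori Finset

theorem dm {n x : ℕ} (y : ℕ) (h : x < n) : (y * n + x) % n = x ∧ (y * n + x) / n = y :=
  ⟨by rw [Nat.mul_add_mod_of_lt h], by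
    rw [add_comm, Nat.add_mul_div_right _ _ (by omega), Nat.div_eq_of_lt h, zero_add]⟩

theorem cl {n x y m : ℕ} (h : x < n) (k : y < m) : y * n + x < m * n := by nlinarith

def Pos (y : ℕ × List (List ℕ)) (c : ℕ → ℕ) : Prop :=
  (∀ a < y.1 * y.1, c a < y.1 * y.1) ∧ (∀ a < y.1 * y.1, ∀ b < y.1 * y.1, c a = c b → a = b) ∧
    ∀ w ∈ y.2, w.IsChain fun a b => Nb (c a % y.1) (c a / y.1) (c b % y.1) (c b / y.1)

theorem king {n : ℕ} (p q : Fin n × Fin n) : King p q ↔ Nb p.1 p.2 q.1 q.2 := by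
  unfold King Nb Nat.dist; omega

theorem eqv (y : ℕ × List (List ℕ)) : Solve y ↔ Valid y ∧ ∃ c, Pos y c := by
  obtain ⟨n, P⟩ := y
  refine and_congr_right fun v => ⟨fun ⟨B, h⟩ => ?_, fun ⟨c, h1, h2, h3⟩ => ?_⟩
  · have e : ∀ p, (if h : (B p : ℕ) < n * n then (B.symm ⟨B p, h⟩).2 * n + (B.symm ⟨B p, h⟩).1
        else 0 : ℕ) = p.2 * n + p.1 := fun p => by simp
    refine ⟨fun a => if h : a < n * n then (B.symm ⟨a, h⟩).2 * n + (B.symm ⟨a, h⟩).1 else 0,
      fun a k => by simpa [k] using cl (Fin.is_lt _) (Fin.is_lt _), fun a k b k' m => ?_,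
      fun w m => (h w m).imp ?_⟩
    · simp only [k, k', dif_pos] at m
      have := dm (B.symm ⟨a, k⟩).2 (B.symm ⟨a, k⟩).1.is_lt
      rw [m, (dm _ (Fin.is_lt _)).1, (dm _ (Fin.is_lt _)).2] at this
      simpa using B.symm.injective (Prod.ext (Fin.ext this.1.symm) (Fin.ext this.2.symm))
    · rintro _ _ ⟨p, q, rfl, rfl, k⟩
      simp only [e, dm _ (Fin.is_lt _)]
      exact (king p q).1 k
  · have n0 : 0 < n := v.1
    let g : Fin (n * n) → Fin n × Fin n := fun a => (⟨c a % n, Nat.mod_lt _ n0⟩,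
      ⟨c a / n, Nat.div_lt_of_lt_mul (h1 a a.2)⟩)
    have : Function.Bijective g := (Fintype.bijective_iff_injective_and_card g).2 ⟨fun a b e => by
      simp only [g, Prod.mk.injEq, Fin.mk.injEq] at e
      exact Fin.ext (h2 a a.2 b b.2 (by rw [← Nat.div_add_mod (c a) n, e.1, e.2, Nat.div_add_mod])),
      by simp⟩
    refine ⟨(Equiv.ofBijective g this).symm, fun w m => (h3 w m).imp_of_mem_imp fun a b k k' e =>
      ⟨g ⟨a, (v.2 w m).2.2 a k⟩, g ⟨b, (v.2 w m).2.2 b k'⟩, by simp, by simp, (king _ _).2 e⟩⟩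

section
variable {α : Type} [Enc α] {a b c d : α → ℕ}

@[fun_prop] theorem dcLe (h : PT a) (k : PT b) : PT fun x => dc (a x ≤ b x) :=
  dc_of (dcNot (dcLt k h)) fun _ => not_lt

@[fun_prop] theorem pt_Nb (h1 : PT a) (h2 : PT b) (h3 : PT c) (h4 : PT d) :
    PT fun x => dc (Nb (a x) (b x) (c x) (d x)) := by unfold Nb; fun_prop

@[fun_prop] theorem pt_Fr (h1 : PT a) (h2 : PT b) (h3 : PT c) (h4 : PT d) :
    PT fun x => dc (Fr (a x) (b x) (c x) (d x)) := by unfold Fr; fun_prop

end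

theorem np : InNP Solve := by
  have ch : ∀ (R : ℕ → ℕ → Prop) (w : List ℕ), (∀ p ∈ w.zip w.tail, R p.1 p.2) ↔ w.IsChain R := by
    intro R w
    induction w with
    | nil => simp
    | cons a w ih => cases w <;> simp_all
  have key : ∀ (y : ℕ × List (List ℕ)) (c : List ℕ), ((1 ≤ y.1 ∧ ∀ w ∈ y.2, 2 ≤ w.length ∧
      (∀ a ∈ w, w.count a ≤ 1) ∧ ∀ a ∈ w, a < y.1 * y.1) ∧
      (∀ a ∈ List.range (y.1 * y.1), c.getD a 0 < y.1 * y.1) ∧ (∀ a ∈ List.range (y.1 * y.1),
      ∀ b ∈ List.range (y.1 * y.1), ¬ c.getD a 0 = c.getD b 0 ∨ a = b) ∧ ∀ w ∈ y.2,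
      ∀ p ∈ w.zip w.tail, Nb (c.getD p.1 0 % y.1) (c.getD p.1 0 / y.1) (c.getD p.2 0 % y.1)
        (c.getD p.2 0 / y.1)) ↔ Valid y ∧ Pos y fun a => c.getD a 0 := fun y c => by
    simp only [Valid, Pos, ← ch, List.mem_range, imp_iff_not_or.symm, List.nodup_iff_count_le_one]
    refine and_congr_left' (and_congr_right' (forall₂_congr fun w _ => and_congr_right'
      (and_congr_left' ⟨fun h a => ?_, fun h a _ => h a⟩)))
    by_cases e : a ∈ w
    · exact h a e
    · simp [List.count_eq_zero_of_not_mem e]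
  refine PT.inNP_nats (V := fun y c => dc (Valid y ∧ Pos y fun a => c.getD a 0))
    (dc_of (by fun_prop) fun p => key p.1 p.2) (fun y => y.1 * y.1 + y.1 * y.1 * (y.1 * y.1))
    (by fun_prop) (fun y c h => (eqv y).2 ⟨(dc_iff.1 h).1, _, (dc_iff.1 h).2⟩) fun y h => ?_
  obtain ⟨v, c, h1, h2, h3⟩ := (eqv y).1 h
  have e : ∀ a < y.1 * y.1, ((List.range (y.1 * y.1)).map c).getD a 0 = c a := fun a k => by
    rw [List.getD_eq_getElem _ _ (by simpa)]; simp
  refine ⟨(List.range (y.1 * y.1)).map c, ?_, dc_iff.2 ⟨v, fun a k => (e a k).trans_lt (h1 a k),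
    fun a k b k' m => h2 a k b k' (by rwa [← e a k, ← e b k']), fun w m =>
    (h3 w m).imp_of_mem_imp fun a b k k' g => by
      beta_reduce; rwa [e a ((v.2 w m).2.2 a k), e b ((v.2 w m).2.2 b k')]⟩⟩
  have := List.sum_le_card_nsmul ((List.range (y.1 * y.1)).map c) (y.1 * y.1) fun x m => by
    obtain ⟨a, k, rfl⟩ := List.mem_map.1 m
    exact (h1 a (List.mem_range.1 k)).le
  simpa using this

def lt (n B t : ℕ) : ℕ := (4 * (t / B) + 3) * n + (3 + t % B)

def red (y : ℕ × ℕ × List ℕ) (n : ℕ) : ℕ × List (List ℕ) :=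
  (n, ((List.range (n * n) ×ˢ List.range (n * n)).filter fun p =>
      decide ((¬ (p.1 / n % 4 = 3 ∧ p.1 / n < 4 * y.1 ∧ 3 ≤ p.1 % n ∧ p.1 % n < 3 + y.2.1) ∧
      ¬ (p.2 / n % 4 = 3 ∧ p.2 / n < 4 * y.1 ∧ 3 ≤ p.2 % n ∧ p.2 % n < 3 + y.2.1)) ∧
      p.1 % n ≤ p.2 % n + 1 ∧ p.2 % n ≤ p.1 % n + 1 ∧ p.1 / n ≤ p.2 / n + 1 ∧ p.2 / n ≤ p.1 / n + 1 ∧
      ¬ (p.1 % n = p.2 % n ∧ p.1 / n = p.2 / n))).map (fun p => [p.1, p.2]) ++
    (List.range y.2.2.length).flatMap fun i => (List.range (y.2.2.getD i 0 - 1)).map fun j =>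
      [lt n y.2.1 ((y.2.2.take i).sum + j), lt n y.2.1 ((y.2.2.take i).sum + j + 1)])

theorem red_mem (k B n : ℕ) (a : List ℕ) (Q : List ℕ → Prop) : (∀ w ∈ (red (k, B, a) n).2, Q w) ↔
    (∀ u < n * n, ∀ v < n * n, Fr k B (u % n) (u / n) → Fr k B (v % n) (v / n) →
      Nb (u % n) (u / n) (v % n) (v / n) → Q [u, v]) ∧ ∀ i < a.length, ∀ j, j + 1 < a.getD i 0 →
      Q [lt n B ((a.take i).sum + j), lt n B ((a.take i).sum + j + 1)] := by
  simp only [red, List.forall_mem_append, List.forall_mem_map, List.forall_mem_flatMap,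
    List.mem_filter, Prod.forall, List.mem_product, List.mem_range, decide_eq_true_eq,
    Nat.lt_sub_iff_add_lt, Fr, Nb]
  exact and_congr_left' ⟨fun h u a v b c d e => h u v ⟨⟨a, b⟩, ⟨c, d⟩, e⟩,
    fun h u v e => h u e.1.1 v e.1.2 e.2.1.1 e.2.1.2 e.2.2⟩

theorem own (a : List ℕ) : ∃ o : ℕ → ℕ, (∀ t < a.sum, o t < a.length ∧ (a.take (o t)).sum ≤ t ∧
    t < (a.take (o t)).sum + a.getD (o t) 0) ∧ (∀ i < a.length, ∀ j < a.getD i 0,
      (a.take i).sum + j < a.sum ∧ o ((a.take i).sum + j) = i) ∧ ∀ (β : ℕ → ℕ) b,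
      ∑ i ∈ range a.length, (if β i = b then a.getD i 0 else 0) =
        #{t ∈ range a.sum | β (o t) = b} := by
  have s : ∀ i < a.length, (a.take (i + 1)).sum = (a.take i).sum + a.getD i 0 := fun i h => by
    rw [List.sum_take_succ _ _ h, List.getD_eq_getElem _ _ h]
  have m : ∀ i j, i ≤ j → (a.take i).sum ≤ (a.take j).sum := fun i j h =>
    (List.take_sublist_take_left h).sum_le_sum (by simp)
  have : ∀ t, ∃ i, t < a.sum → i < a.length ∧ (a.take i).sum ≤ t ∧
      t < (a.take i).sum + a.getD i 0 := fun t => by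
    by_cases h : t < a.sum
    · have ex : ∃ i, t < (a.take i).sum := ⟨a.length, by simpa⟩
      have h1 := Nat.find_spec ex
      have h2 : Nat.find ex ≤ a.length := Nat.find_min' ex (by simpa)
      obtain ⟨i, e⟩ : ∃ i, Nat.find ex = i + 1 := Nat.exists_eq_succ_of_ne_zero fun e => by
        simp [e] at h1
      have := Nat.find_min ex (m := i) (by omega)
      rw [e] at h1 h2
      exact ⟨i, fun _ => ⟨h2, by omega, s i h2 ▸ h1⟩⟩
    · exact ⟨0, fun k => absurd k h⟩
  choose o ho using this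
  have u : ∀ i < a.length, ∀ j < a.getD i 0,
      (a.take i).sum + j < a.sum ∧ o ((a.take i).sum + j) = i := fun i h j k => by
    have := m (i + 1) a.length h
    rw [s i h, List.take_length] at this
    obtain ⟨b, c, d⟩ := ho ((a.take i).sum + j) (by omega)
    have := m (i + 1) (o ((a.take i).sum + j))
    have := m (o ((a.take i).sum + j) + 1) i
    rw [s _ h, s _ b] at *
    omega
  refine ⟨o, ho, u, fun β b => ?_⟩
  rw [card_eq_sum_card_fiberwise (f := o) (t := range a.length) fun t m => by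
    simp at m ⊢; exact (ho t m.1).1]
  refine sum_congr rfl fun i k => ?_
  rw [mem_range] at k
  split_ifs with e
  · rw [show {t ∈ {t ∈ range a.sum | β (o t) = b} | o t = i} =
      Ico (a.take i).sum ((a.take i).sum + a.getD i 0) from ?_]
    · simp
    ext t
    simp only [mem_filter, mem_range, mem_Ico]
    refine ⟨fun h => h.2 ▸ (ho t h.1.1).2, fun h => ?_⟩
    have := u i k (t - (a.take i).sum) (by omega)
    rw [Nat.add_sub_cancel' h.1] at this
    simp [this, e]
  · exact (card_eq_zero.2 (filter_eq_empty_iff.2 fun t m g => e (by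
      rw [← g]; exact (mem_filter.1 m).2))).symm

theorem red_iff (k B n : ℕ) (a : List ℕ) (hn : n = 4 * k + B + 6) (h1 : a.sum = k * B)
    (h2 : ∀ x ∈ a, B < 5 * x) : BP (k, B, a) ↔ Solve (red (k, B, a) n) := by
  obtain ⟨o, o1, o2, o3⟩ := own a
  have l1 : ∀ t < k * B, lt n B t % n = 3 + t % B ∧ lt n B t / n = 4 * (t / B) + 3 ∧
      t % B < B ∧ t / B < k ∧ lt n B t < n * n := fun t h => by
    have := Nat.mod_lt t (Nat.pos_of_mul_pos_left (Nat.zero_lt_of_lt h) : 0 < B)
    have := Nat.div_lt_of_lt_mul (mul_comm k B ▸ h)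
    exact ⟨(dm _ (by omega)).1, (dm _ (by omega)).2, by omega, by omega, cl (by omega) (by omega)⟩
  have l2 : ∀ t < k * B, ∀ t' < k * B, lt n B t = lt n B t' → t = t' := fun t h t' h' e => by
    have := l1 t h
    have := l1 t' h'
    rw [e] at *
    rw [← Nat.div_add_mod t B, ← Nat.div_add_mod t' B, show t / B = t' / B by omega,
      show t % B = t' % B by omega]
  rw [h1] at o1 o2 o3
  have v : Valid (red (k, B, a) n) := by
    refine ⟨by simp [red, hn], (red_mem ..).2 ⟨fun u a v b _ _ e => ⟨le_rfl, ?_, by simp [red, a, b]⟩,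
      fun i b j c => ?_⟩⟩
    · simpa using fun g => e.2.2.2.2 (by simp [g])
    · have := (o2 i b (j + 1) c).1
      have := l2 ((a.take i).sum + j) (by omega) _ this
      rw [← add_assoc] at *
      refine ⟨le_rfl, by simpa using fun e => by have := this e; omega, ?_⟩
      simpa [red] using ⟨(l1 _ (by omega)).2.2.2.2, (l1 _ (by omega)).2.2.2.2⟩
  rw [eqv, and_iff_right v]
  simp only [Pos, red_mem, BP, o3, show (red (k, B, a) n).1 = n from rfl, List.isChain_pair]
  constructor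
  · rintro ⟨β, b1, b2⟩
    obtain ⟨ρ, hρ⟩ : ∃ ρ : ℕ → ℕ, ∀ t, ρ t = #{s ∈ range t | β (o s) = β (o t)} := ⟨_, fun _ => rfl⟩
    have r1 : ∀ t T, t < T → ρ t < #{s ∈ range T | β (o s) = β (o t)} := fun t T h => by
      rw [hρ]
      refine card_lt_card ⟨filter_subset_filter _ (range_subset_range.2 h.le), fun e => ?_⟩
      simpa using e (mem_filter.2 ⟨mem_range.2 h, rfl⟩)
    have r2 : ∀ t < k * B, β (o t) < k ∧ ρ t < B := fun t h =>
      ⟨b1 _ (o1 t h).1, b2 _ (b1 _ (o1 t h).1) ▸ r1 t _ h⟩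
    obtain ⟨τ, hτ⟩ : ∃ τ : ℕ → ℕ, ∀ u, τ u = u / n / 4 * B + (u % n - 3) := ⟨_, fun _ => rfl⟩
    have t1 : ∀ u, ¬ Fr k B (u % n) (u / n) → τ u < k * B ∧ lt n B (τ u) = u := fun u h => by
      unfold Fr at h
      rw [hτ, lt, (dm _ (by omega)).1, (dm _ (by omega)).2, show 4 * (u / n / 4) + 3 = u / n by omega,
        show 3 + (u % n - 3) = u % n by omega, Nat.div_add_mod']
      exact ⟨cl (by omega) (by omega), rfl⟩
    classical
    obtain ⟨c, hc⟩ : ∃ c : ℕ → ℕ, ∀ u, c u = if Fr k B (u % n) (u / n) then u else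
      (4 * β (o (τ u)) + 3) * n + (3 + ρ (τ u)) := ⟨_, fun _ => rfl⟩
    have c1 : ∀ u, ¬ Fr k B (u % n) (u / n) → c u % n = 3 + ρ (τ u) ∧
        c u / n = 4 * β (o (τ u)) + 3 := fun u h => by
      have := r2 _ (t1 u h).1
      rw [hc, if_neg h]; exact dm _ (by omega)
    have c2 : ∀ t < k * B, c (lt n B t) % n = 3 + ρ t ∧ c (lt n B t) / n = 4 * β (o t) + 3 := by
      intro t h
      have := l1 t h
      have f : ¬ Fr k B (lt n B t % n) (lt n B t / n) := by unfold Fr; omega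
      simpa [l2 _ (t1 _ f).1 t h (t1 _ f).2] using c1 _ f
    refine ⟨c, fun u h => ?_, fun u h w h' e => ?_, fun u _ w _ f g e => by
      rwa [hc, hc, if_pos f, if_pos g], fun i b j g => ?_⟩
    · rw [hc]
      split_ifs with f
      · exact h
      · have := r2 _ (t1 u f).1
        exact cl (by omega) (by omega)
    · have z : ∀ u w, c u = c w → Fr k B (u % n) (u / n) → Fr k B (w % n) (w / n) := fun u w e f => by
        by_contra g
        have := c1 w g
        have := r2 _ (t1 w g).1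
        rw [← e, hc, if_pos f] at *
        unfold Fr at f; omega
      by_cases f : Fr k B (u % n) (u / n)
      · have g := z _ _ e f
        rwa [hc u, hc w, if_pos f, if_pos g] at e
      have g := fun g => f (z _ _ e.symm g)
      have e1 := c1 u f
      have e2 := c1 w g
      have e3 : β (o (τ u)) = β (o (τ w)) := by rw [e] at e1; omega
      have e4 := r1 (τ u) (τ w)
      have e5 := r1 (τ w) (τ u)
      rw [e3, ← hρ] at e4
      rw [← e3, ← hρ] at e5
      rw [← (t1 u f).2, ← (t1 w g).2, show τ u = τ w by rw [e] at e1; omega]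
    · have e1 := o2 i b j (by omega)
      have e2 := o2 i b (j + 1) g
      rw [← add_assoc] at e2
      have e3 := hρ ((a.take i).sum + j + 1)
      rw [range_add_one, filter_insert, e2.2.trans e1.2.symm, if_pos rfl,
        card_insert_of_notMem (by simp), ← hρ] at e3
      have := c2 _ e1.1
      have := c2 _ e2.1
      unfold Nb; grind
  · rintro ⟨c, c1, c2, c3, c4⟩
    obtain ⟨p, hp⟩ : ∃ p : ℕ → ℤ × ℤ, ∀ u, p u = (((c u % n : ℕ) : ℤ), ((c u / n : ℕ) : ℤ)) :=
      ⟨_, fun _ => rfl⟩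
    have p1 : ∀ u < n * n, 0 ≤ (p u).1 ∧ (p u).1 < n ∧ 0 ≤ (p u).2 ∧ (p u).2 < n := fun u h => by
      have := Nat.mod_lt (c u) (by omega : 0 < n)
      have := Nat.div_lt_of_lt_mul (c1 u h)
      simp only [hp]
      generalize c u / n = z, c u % n = z' at *; omega
    have p2 : ∀ u < n * n, ∀ w < n * n, u ≠ w → D (p u) (p w) := fun u h w h' e g => by
      simp only [hp, Nat.cast_inj] at g
      exact e (c2 u h w h' (by rw [← Nat.div_add_mod (c u) n, g.1, g.2, Nat.div_add_mod]))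
    have p3 : ∀ u w, Nb (c u % n) (c u / n) (c w % n) (c w / n) → A (p u) (p w) := fun u w e => by
      simp only [hp, A, Nb] at *; omega
    obtain ⟨T, t1, t2, t3⟩ := Emb.sym (k := k) (B := B) (f := fun x y => p (y * n + x))
      (fun x a y b x' a' y' b' f g => ⟨fun e => p3 _ _ (c3 _ (cl a b) _ (cl a' b')
        (by simpa [dm _ a]) (by simpa [dm _ a']) (by simpa [dm _ a, dm _ a'])),
        fun e => p2 _ (cl a b) _ (cl a' b') fun m => e (by
          have := dm y a; have := dm y' a'; rw [m] at *; omega)⟩) hn fun x a y b => p1 _ (cl a b)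
    have q : ∀ t, ∃ r s : ℕ, t < k * B → r < k ∧ s < B ∧ (T (p (lt n B t))).1 = 3 + s ∧
        (T (p (lt n B t))).2 = 4 * r + 3 := fun t => by
      refine ⟨(T (p (lt n B t))).2.toNat / 4, (T (p (lt n B t))).1.toNat - 3, fun h => ?_⟩
      have e := l1 t h
      have := t2 _ (p1 _ e.2.2.2.2)
      have : ¬ Fr k B (T (p (lt n B t))).1.toNat (T (p (lt n B t))).2.toNat := fun f => by
        have := t3 _ (by omega) _ (by omega) f
        refine (t1 _ _).2 (p2 _ e.2.2.2.2 _ (cl (x := (T (p (lt n B t))).1.toNat)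
          (y := (T (p (lt n B t))).2.toNat) (by omega) (by omega)) fun m => ?_) (by omega)
        have := dm (x := (T (p (lt n B t))).1.toNat) (n := n) (T (p (lt n B t))).2.toNat (by omega)
        rw [← m] at this
        unfold Fr at f; omega
      unfold Fr at this; omega
    choose r s q using q
    have r1 : ∀ i < a.length, ∀ j < a.getD i 0, r ((a.take i).sum + j) = r (a.take i).sum := by
      intro i b j
      induction j with
      | zero => simp
      | succ j ih =>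
        intro g
        have := (t1 _ _).1 (p3 _ _ (c4 i b j g))
        have := q _ (o2 i b j (by omega)).1
        have := q _ (o2 i b (j + 1) g).1
        have := ih (by omega)
        rw [← add_assoc] at *
        unfold A at *; omega
    have r2 : ∀ t < k * B, r (a.take (o t)).sum = r t := fun t h => by
      have := o1 t h
      rw [← r1 _ this.1 (t - (a.take (o t)).sum) (by omega), Nat.add_sub_cancel' this.2.1]
    have r3 : ∀ b ∈ range k, #{t ∈ range (k * B) | r (a.take (o t)).sum = b} ≤ B := fun b _ => by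
      refine (card_le_card_of_injOn s (t := range B) (fun t m => ?_) fun t m t' m' e => ?_).trans
        (card_range B).le
      · simp at m ⊢; exact (q t m.1).2.1
      simp only [coe_filter, mem_range, Set.mem_ofPred_eq] at m m'
      by_contra g
      have := (t1 _ _).2 (p2 _ (l1 t m.1).2.2.2.2 _ (l1 t' m'.1).2.2.2.2 fun z => g (l2 _ m.1 _ m'.1 z))
      have := q t m.1
      have := q t' m'.1
      have := r2 t m.1
      have := r2 t' m'.1
      unfold D at *; omega
    refine ⟨fun i => r (a.take i).sum, fun i b => (q _ (o2 i b 0 ?_).1).1, fun b m => ?_⟩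
    · have := h2 _ (List.getElem_mem b)
      rw [List.getD_eq_getElem _ _ b]; omega
    refine (sum_eq_sum_iff_of_le r3).1 ?_ b (mem_range.2 m)
    rw [← card_eq_sum_card_fiberwise fun t m => by
      simp at m ⊢; rw [r2 t m]; exact (q t m).1]
    simp

theorem result : NPComplete Solve := by
  refine ⟨np, fun L hL => ?_⟩
  obtain ⟨f, hf, e⟩ := hard_BP L hL
  have : PT fun y : ℕ × ℕ × List ℕ => red y (4 * y.1 + y.2.1 + 6) := by unfold red lt; fun_prop
  exact ⟨fun x => red (f x) _, (this.comp hf).polyTime_raw, fun x =>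
    (e x).2.trans (red_iff _ _ _ _ rfl (e x).1.1 (e x).1.2)⟩

end Pool.Agent.Results.MP_406c0a_lc.NPC
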